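import Pool.Agent.Helper19.HV.StC

/-!
# Project HV, module BLD (helper9)
-/

set_option autoImplicit false

open scoped TensorProduct

namespace Pool.Agent.Helper19.HV

noncomputable section

open PL

private def bldW {G N : Type} [Field G] [AddCommGroup N] [Module ℚ N] (j : ℕ) :
    (V G [⋀^Fin j]→ₗ[ℚ] N) →ₗ[ℚ] (W G j →ₗ[ℚ] N) :=
  (exteriorPower.alternatingMapLinearEquiv (R := ℚ) (M := V G) (N := N) (n := j)).toLinearMap

private theorem bldW_apply {G N : Type} [Field G] [AddCommGroup N] [Module ℚ N] (j : ℕ)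
    (A : V G [⋀^Fin j]→ₗ[ℚ] N) (v : Fin j → V G) : bldW j A (pr G j v) = A v :=
  exteriorPower.alternatingMapLinearEquiv_apply_ιMulti A v

theorem mBLD : sBLD := by
  intro G N _ _ _ q j Φ hK
  set ψ : ZP G →ₗ[ℚ] (W G j →ₗ[ℚ] N) := bldW j ∘ₗ Finsupp.linearCombination ℚ Φ with hψ
  have hle : R (q + 2) G ≤ LinearMap.ker ψ := by
    intro α hα
    rw [LinearMap.mem_ker, hψ, LinearMap.comp_apply, hK α hα, map_zero]
  refine ⟨(TensorProduct.lift ((R (q + 2) G).liftQ ψ hle) : B (q + 2) G ⊗[ℚ] W G j →ₗ[ℚ] N), ?_⟩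
  intro x v
  have h : (TensorProduct.lift ((R (q + 2) G).liftQ ψ hle) : B (q + 2) G ⊗[ℚ] W G j →ₗ[ℚ] N)
      (sym (q + 2) x ⊗ₜ[ℚ] pr G j v) = Φ x v := by
    rw [TensorProduct.lift.tmul]
    have h2 : ((R (q + 2) G).liftQ ψ hle) (sym (q + 2) x) = ψ (Finsupp.single x 1) :=
      Submodule.liftQ_apply _ _ _
    rw [h2, hψ, LinearMap.comp_apply, Finsupp.linearCombination_single, one_smul]
    exact bldW_apply j (Φ x) v
  exact h

end

end Pool.Agent.Helper19.HV
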